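import Pool.Agent.H84.FK.Targets

/-!
# Module TC of fk_modules: counting in type (i)
-/

set_option autoImplicit false
set_option linter.unusedVariables false

namespace Pool.Agent.H86.FK

open Pool.Agent.H84.FK

/-- `B0` is normal in `B` -/
theorem conj_B0 {G : Type} [Group G] {B B0 : Subgroup G} (hT : Two B B0) {t x : G}
    (ht : t ∈ B) (hx : x ∈ B0) : t * x * t⁻¹ ∈ B0 := by
  by_cases h : t ∈ B0
  · exact B0.mul_mem (B0.mul_mem h hx) (B0.inv_mem h)
  · refine hT.2 (t * x) (B.mul_mem ht (hT.1 hx)) t⁻¹ (B.inv_mem ht) ?_ ?_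
    · intro hc
      apply h
      have := B0.mul_mem hc (B0.inv_mem hx)
      rwa [mul_inv_cancel_right] at this
    · intro hc
      exact h (by simpa using B0.inv_mem hc)

/-- half of the elements conjugate `x` into `M` -/
theorem half {G : Type} [Group G] [Fintype G] [DecidableEq G] (A B B0 M : Subgroup G)
    [DecidablePred (· ∈ M)] (hF : Fac A B) (hAM : A ≤ M) (hB : Ab B0) (hT : Two B B0) (x t : G)
    (hx : x ≠ 1) (hxM : x ∈ M) (hxB : x ∈ B) (hx0 : x ∈ B0)
    (h2 : ∀ t ∈ B, t ∉ B0 → ∀ x ∈ M, x ∈ B → t * x * t⁻¹ ∈ M → x = 1)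
    (ht : t ∈ B) (ht0 : t ∉ B0) :
    2 * (Finset.univ.filter (fun g : G => g⁻¹ * x * g ∈ M)).card = Fintype.card G := by
  have key : ∀ b ∈ B, ∀ m ∈ M, ((b * m)⁻¹ * x * (b * m) ∈ M ↔ b ∈ B0) := by
    intro b hb m hm
    have e : (b * m)⁻¹ * x * (b * m) = m⁻¹ * (b⁻¹ * x * b) * m := by group
    rw [e]
    have e2 : (m⁻¹ * (b⁻¹ * x * b) * m ∈ M ↔ b⁻¹ * x * b ∈ M) := by
      constructor
      · intro h
        have := M.mul_mem (M.mul_mem hm h) (M.inv_mem hm)
        have e3 : m * (m⁻¹ * (b⁻¹ * x * b) * m) * m⁻¹ = b⁻¹ * x * b := by group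
        rwa [e3] at this
      · intro h
        exact M.mul_mem (M.mul_mem (M.inv_mem hm) h) hm
    rw [e2]
    constructor
    · intro h
      by_contra hb0
      apply hx
      refine h2 b⁻¹ (B.inv_mem hb) (fun hc => hb0 (by simpa using B0.inv_mem hc)) x hxM hxB ?_
      rwa [inv_inv]
    · intro h
      have : b⁻¹ * x * b = x := by
        rw [mul_assoc, hB x hx0 b h]
        group
      rw [this]
      exact hxM
  have dec : ∀ g : G, ∃ b ∈ B, ∃ m ∈ M, g = b * m := by
    intro g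
    obtain ⟨a, ha, b, hb, hg⟩ := hF g⁻¹
    refine ⟨b⁻¹, B.inv_mem hb, a⁻¹, M.inv_mem (hAM ha), ?_⟩
    rw [← inv_inv g, hg, mul_inv_rev]
  have iffS : ∀ g : G, (g⁻¹ * x * g ∈ M) ↔ ¬ ((t * g)⁻¹ * x * (t * g) ∈ M) := by
    intro g
    obtain ⟨b, hb, m, hm, rfl⟩ := dec g
    rw [key b hb m hm, ← mul_assoc t b m, key (t * b) (B.mul_mem ht hb) m hm]
    constructor
    · intro h hc
      apply ht0
      have := B0.mul_mem hc (B0.inv_mem h)
      rwa [mul_inv_cancel_right] at this
    · intro h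
      by_contra hb0
      exact h (hT.2 t ht b hb ht0 hb0)
  have hc : (Finset.univ.filter (fun g : G => g⁻¹ * x * g ∈ M)).card =
      (Finset.univ.filter (fun g : G => ¬ (g⁻¹ * x * g ∈ M))).card := by
    refine Finset.card_bij' (fun g _ => t * g) (fun g _ => t⁻¹ * g) ?_ ?_ ?_ ?_
    · intro g hg
      simp only [Finset.mem_filter, Finset.mem_univ, true_and] at hg ⊢
      exact (iffS g).1 hg
    · intro g hg
      simp only [Finset.mem_filter, Finset.mem_univ, true_and] at hg ⊢
      rw [iffS, mul_inv_cancel_left]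
      exact hg
    · intro g hg
      exact inv_mul_cancel_left t g
    · intro g hg
      exact mul_inv_cancel_left t g
  have hs := Finset.card_filter_add_card_filter_not (s := (Finset.univ : Finset G))
    (fun g : G => g⁻¹ * x * g ∈ M)
  rw [← hc, Finset.card_univ] at hs
  omega

/-- the subgroup of the elements `a⁻¹ x⁻¹ a x` -/
def WW {G : Type} [Group G] (A : Subgroup G) (x : G) (hA : Ab A)
    (hn : ∀ a ∈ A, x⁻¹ * a * x ∈ A) : Subgroup G where
  carrier := {w | ∃ a ∈ A, w = a⁻¹ * (x⁻¹ * a * x)}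
  mul_mem' := by
    rintro _ _ ⟨a, ha, rfl⟩ ⟨b, hb, rfl⟩
    refine ⟨a * b, A.mul_mem ha hb, ?_⟩
    have h1 := hA (x⁻¹ * a * x) (hn a ha) b⁻¹ (A.inv_mem hb)
    have h2 := hA a⁻¹ (A.inv_mem ha) b⁻¹ (A.inv_mem hb)
    calc a⁻¹ * (x⁻¹ * a * x) * (b⁻¹ * (x⁻¹ * b * x))
        = a⁻¹ * ((x⁻¹ * a * x) * b⁻¹) * (x⁻¹ * b * x) := by group
      _ = (a⁻¹ * b⁻¹) * ((x⁻¹ * a * x) * (x⁻¹ * b * x)) := by rw [h1]; group
      _ = (b⁻¹ * a⁻¹) * ((x⁻¹ * a * x) * (x⁻¹ * b * x)) := by rw [h2]
      _ = (a * b)⁻¹ * (x⁻¹ * (a * b) * x) := by group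
  one_mem' := ⟨1, A.one_mem, by group⟩
  inv_mem' := by
    rintro _ ⟨a, ha, rfl⟩
    refine ⟨a⁻¹, A.inv_mem ha, ?_⟩
    have h1 := hA a ha (x⁻¹ * a⁻¹ * x) (hn a⁻¹ (A.inv_mem ha))
    calc (a⁻¹ * (x⁻¹ * a * x))⁻¹ = (x⁻¹ * a⁻¹ * x) * a := by group
      _ = a * (x⁻¹ * a⁻¹ * x) := h1.symm
      _ = a⁻¹⁻¹ * (x⁻¹ * a⁻¹ * x) := by rw [inv_inv]

/-- an element of `W` which commutes with `x` is trivial -/
theorem W_comm {G : Type} [Group G] (A : Subgroup G) [Finite A] (x : G) (r : ℕ) (hr : r.Prime)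
    (hx : x ^ r = 1) (hrA : ¬ r ∣ Nat.card A) (a w : G) (hw : w ∈ A)
    (e : x⁻¹ * a * x = a * w) (hc : w * x = x * w) : w = 1 := by
  have hk : ∀ k : ℕ, (x ^ k)⁻¹ * a * x ^ k = a * w ^ k := by
    intro k
    induction k with
    | zero => simp
    | succ k ih =>
      have hc' : Commute w x := hc
      have h1 : x⁻¹ * w ^ k * x = w ^ k := by
        rw [mul_assoc, (hc'.pow_left k).eq, ← mul_assoc, inv_mul_cancel, one_mul]
      calc (x ^ (k + 1))⁻¹ * a * x ^ (k + 1)
          = x⁻¹ * ((x ^ k)⁻¹ * a * x ^ k) * x := by rw [pow_succ]; group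
        _ = x⁻¹ * (a * w ^ k) * x := by rw [ih]
        _ = (x⁻¹ * a * x) * (x⁻¹ * w ^ k * x) := by group
        _ = a * w ^ (k + 1) := by rw [e, h1, pow_succ']; group
  have h2 := hk r
  rw [hx, inv_one, one_mul, mul_one] at h2
  have h3 : w ^ r = 1 := by
    have := congrArg (fun z => a⁻¹ * z) h2
    simpa using this.symm
  have h4 : orderOf w ∣ r := orderOf_dvd_of_pow_eq_one h3
  rcases (Nat.dvd_prime hr).1 h4 with h5 | h5
  · exact orderOf_eq_one_iff.1 h5
  · exfalso
    apply hrA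
    have h6 : orderOf (⟨w, hw⟩ : A) ∣ Nat.card A := orderOf_dvd_natCard _
    rwa [Subgroup.orderOf_mk, h5] at h6

theorem pf_tc (hC3 : T_C3) (hC4 : T_C4) : T_TC := by
  classical
  intro G _ A B B0 M hCE hOv h1 h2 h3 x r hr hxr hrA hxM hxB
  obtain ⟨hfin, hF, hA, hB, hT, hns, hsub, hquo⟩ := hCE
  obtain ⟨hle, hne, hmax, hconj⟩ := hOv
  have hfty : Fintype G := Fintype.ofFinite G
  obtain ⟨⟨t, ht, ht0⟩, -, -⟩ := hC4 G A B B0 ⟨hfin, hF, hA, hB, hT, hns, hsub, hquo⟩
  have hx0 : x ∈ B0 := h1 x hxM hxB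
  have hx1 : x ≠ 1 := by
    rintro rfl
    rw [orderOf_one] at hxr
    exact hr.one_lt.ne hxr
  have hxpow : x ^ r = 1 := by rw [← hxr]; exact pow_orderOf_eq_one x
  have hn : ∀ a ∈ A, x⁻¹ * a * x ∈ A := by
    intro a ha
    have := h3 x⁻¹ (M.inv_mem hxM) a ha
    rwa [inv_inv] at this
  have hn' : ∀ a ∈ A, x * a * x⁻¹ ∈ A := h3 x hxM
  let W : Subgroup G := WW A x hA hn
  have memW : ∀ w, w ∈ W ↔ ∃ a ∈ A, w = a⁻¹ * (x⁻¹ * a * x) := fun w => Iff.rfl
  have hWA : W ≤ A := by
    rintro _ ⟨a, ha, rfl⟩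
    exact A.mul_mem (A.inv_mem ha) (hn a ha)
  -- (1)
  have hW1 : W ≠ ⊥ := by
    intro hbot
    have hcA : ∀ a ∈ A, x * a = a * x := by
      intro a ha
      have hmem : a⁻¹ * (x⁻¹ * a * x) ∈ W := ⟨a, ha, rfl⟩
      rw [hbot, Subgroup.mem_bot] at hmem
      have h5 : x⁻¹ * a * x = a := by
        have := congrArg (fun z => a * z) hmem
        simpa using this
      calc x * a = x * (x⁻¹ * a * x) := by rw [h5]
        _ = a * x := by group
    have hcen : A ≤ Subgroup.centralizer ({x} : Set G) := by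
      intro a ha
      rw [Subgroup.mem_centralizer_singleton_iff]
      exact (hcA a ha).symm
    have hct : Subgroup.centralizer ({x} : Set G) ≠ ⊤ := by
      intro htop
      have hall : ∀ g : G, g * x = x * g := by
        intro g
        have : g ∈ Subgroup.centralizer ({x} : Set G) := by rw [htop]; trivial
        rwa [Subgroup.mem_centralizer_singleton_iff] at this
      have hnorm : (Subgroup.zpowers x).Normal := by
        constructor
        intro n hn g
        obtain ⟨k, rfl⟩ := Subgroup.mem_zpowers_iff.1 hn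
        have : Commute g (x ^ k) := (show Commute g x from hall g).zpow_right k
        rw [this.eq, mul_inv_cancel_right]
        exact Subgroup.mem_zpowers_iff.2 ⟨k, rfl⟩
      have hsol : Group.IsSolvable (Subgroup.zpowers x) := by
        apply Group.isSolvable_of_comm
        intro a b
        exact (IsCyclic.isMulCommutative (α := Subgroup.zpowers x)).is_comm.comm a b
      have := hquo _ hnorm hsol
      exact hx1 (Subgroup.zpowers_eq_bot.1 this)
    have hcM := hmax _ hcen hct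
    have hB0M : B0 ≤ M := by
      intro b hb
      apply hcM
      rw [Subgroup.mem_centralizer_singleton_iff]
      exact hB b hb x hx0
    exact hx1 (h2 t ht ht0 x hxM hxB (hB0M (conj_B0 hT ht hx0)))
  -- (2)
  have hfx : ∀ w ∈ W, w * x = x * w → w = 1 := by
    rintro w hw hc
    obtain ⟨a, ha, e⟩ := (memW w).1 hw
    refine W_comm A x r hr hxpow hrA a w (hWA hw) ?_ hc
    rw [e]
    group
  -- `φ` is a bijection of `W`
  have hphi : ∀ w ∈ W, ∃ c ∈ W, c⁻¹ * (x⁻¹ * c * x) = w := by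
    let f : W → W := fun c => ⟨c.1⁻¹ * (x⁻¹ * c.1 * x), ⟨c.1, hWA c.2, rfl⟩⟩
    have hinj : Function.Injective f := by
      rintro ⟨c, hc⟩ ⟨d, hd⟩ hcd
      have e := congrArg Subtype.val hcd
      change c⁻¹ * (x⁻¹ * c * x) = d⁻¹ * (x⁻¹ * d * x) at e
      apply Subtype.ext
      change c = d
      have hcdA := hA c (hWA hc) d⁻¹ (A.inv_mem (hWA hd))
      have h5 : (c * d⁻¹) * x = x * (c * d⁻¹) := by
        have h6 : x⁻¹ * c * x = c * d⁻¹ * (x⁻¹ * d * x) := by
          calc x⁻¹ * c * x = c * (c⁻¹ * (x⁻¹ * c * x)) := by group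
            _ = c * (d⁻¹ * (x⁻¹ * d * x)) := by rw [e]
            _ = c * d⁻¹ * (x⁻¹ * d * x) := by group
        have h7 : x⁻¹ * (c * d⁻¹) * x = c * d⁻¹ := by
          calc x⁻¹ * (c * d⁻¹) * x = (x⁻¹ * c * x) * (x⁻¹ * d⁻¹ * x) := by group
            _ = c * d⁻¹ * (x⁻¹ * d * x) * (x⁻¹ * d⁻¹ * x) := by rw [h6]
            _ = c * d⁻¹ := by group
        calc (c * d⁻¹) * x = x * (x⁻¹ * (c * d⁻¹) * x) := by group
          _ = x * (c * d⁻¹) := by rw [h7]
      have h8 := hfx (c * d⁻¹) (W.mul_mem hc (W.inv_mem hd)) h5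
      exact mul_inv_eq_one.1 h8
    have hsurj : Function.Surjective f := Finite.surjective_of_injective hinj
    intro w hw
    obtain ⟨c, hc⟩ := hsurj ⟨w, hw⟩
    exact ⟨c.1, c.2, congrArg Subtype.val hc⟩
  -- (4)
  have hconjx : ∀ w ∈ W, ∃ c : G, x * w = c⁻¹ * x * c := by
    intro w hw
    obtain ⟨c, hc, e⟩ := hphi w⁻¹ (W.inv_mem hw)
    refine ⟨c, ?_⟩
    have h5 : w = (c⁻¹ * (x⁻¹ * c * x))⁻¹ := by rw [e, inv_inv]
    rw [h5]
    group
  -- `x` normalises `W`
  have hxW : ∀ w ∈ W, x⁻¹ * w * x ∈ W := by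
    rintro _ ⟨a, ha, rfl⟩
    refine ⟨x⁻¹ * a * x, hn a ha, ?_⟩
    group
  have hxW' : ∀ w ∈ W, x * w * x⁻¹ ∈ W := by
    rintro _ ⟨a, ha, rfl⟩
    refine ⟨x * a * x⁻¹, hn' a ha, ?_⟩
    group
  -- commutators of `M` are in `A`
  have hdec : ∀ m ∈ M, ∃ a ∈ A, ∃ e ∈ B0, e ∈ M ∧ m = a * e := by
    intro m hm
    obtain ⟨a, ha, b, hb, rfl⟩ := hF m
    have hbM : b ∈ M := by
      have := M.mul_mem (M.inv_mem (hle ha)) hm
      rwa [inv_mul_cancel_left] at this
    exact ⟨a, ha, b, h1 b hbM hb, hbM, rfl⟩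
  have hcomm : ∀ m ∈ M, ∀ n ∈ M, m⁻¹ * (n⁻¹ * m * n) ∈ A := by
    intro m hm n hn
    obtain ⟨a, ha, e, he, heM, rfl⟩ := hdec m hm
    obtain ⟨b, hb, f, hf, hfM, rfl⟩ := hdec n hn
    have nA : ∀ m ∈ M, ∀ a ∈ A, m⁻¹ * a * m ∈ A := by
      intro m hm a ha
      have := h3 m⁻¹ (M.inv_mem hm) a ha
      rwa [inv_inv] at this
    have c1 : (f * a⁻¹ * f⁻¹) * (b⁻¹ * a) ∈ A :=
      A.mul_mem (h3 f hfM a⁻¹ (A.inv_mem ha)) (A.mul_mem (A.inv_mem hb) ha)
    have c2 := A.mul_mem (nA e heM _ c1) hb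
    have c3 := nA f hfM _ c2
    have e1 : e * f = f * e := hB e he f hf
    have e2 : (a * e)⁻¹ * ((b * f)⁻¹ * (a * e) * (b * f)) =
        (e⁻¹ * f⁻¹ * e * f) * (f⁻¹ * (e⁻¹ * ((f * a⁻¹ * f⁻¹) * (b⁻¹ * a)) * e * b) * f) := by
      group
    have e3 : e⁻¹ * f⁻¹ * e * f = 1 := by
      rw [mul_assoc, e1]
      group
    rw [e2, e3, one_mul]
    exact c3
  -- (6)
  have h6 : ∀ g : G, g ∉ M →
      3 * (Finset.univ.filter (fun w : G => w ∈ W ∧ g⁻¹ * (x * w) * g ∈ M)).card ≤
        (Finset.univ.filter (fun w : G => w ∈ W)).card := by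
    intro g hg
    let Mg : Subgroup G := M.comap (MulAut.conj g⁻¹).toMonoidHom
    have memMg : ∀ y, y ∈ Mg ↔ g⁻¹ * y * g ∈ M := by
      intro y
      change (MulAut.conj g⁻¹) y ∈ M ↔ _
      rw [MulAut.conj_apply, inv_inv]
    let W1 : Subgroup G := W ⊓ Mg
    by_cases hemp : ∃ w0 ∈ W, g⁻¹ * (x * w0) * g ∈ M
    · obtain ⟨w0, hw0, hxw0⟩ := hemp
      have hy : x * w0 ∈ Mg := (memMg _).2 hxw0
      -- the set is contained in a coset of `W1`
      have hcard1 : (Finset.univ.filter (fun w : G => w ∈ W ∧ g⁻¹ * (x * w) * g ∈ M)).card ≤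
          (Finset.univ.filter (fun w : G => w ∈ W1)).card := by
        refine Finset.card_le_card_of_injOn (fun w => w0⁻¹ * w) ?_ ?_
        · intro w hw
          simp only [Finset.coe_filter, Finset.mem_univ, true_and, Set.mem_ofPred_eq] at hw ⊢
          refine ⟨W.mul_mem (W.inv_mem hw0) hw.1, ?_⟩
          have h7 := Mg.mul_mem (Mg.inv_mem hy) ((memMg _).2 hw.2)
          have e : (x * w0)⁻¹ * (x * w) = w0⁻¹ * w := by group
          rwa [e] at h7
        · intro a _ b _ hab
          exact mul_left_cancel hab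
      have hidx : 3 ≤ W1.relIndex W := by
        by_contra hlt
        rw [not_le] at hlt
        have hrel0 : W1.relIndex W ≠ 0 := Subgroup.FiniteIndex.index_ne_zero
        -- products of two elements outside of `W1`
        have hprod : ∀ u ∈ W, ∀ v ∈ W, u ∉ W1 → v ∉ W1 → u * v ∈ W1 := by
          intro u hu v hv hu1 hv1
          have h12 : W1.relIndex W = 1 ∨ W1.relIndex W = 2 := by omega
          rcases h12 with h12 | h12
          · exact absurd ((Subgroup.relIndex_eq_one.1 h12) hu) hu1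
          · have h9 := Subgroup.mul_mem_iff_of_index_two (H := W1.subgroupOf W) h12
              (a := ⟨u, hu⟩) (b := ⟨v, hv⟩)
            rw [Subgroup.mem_subgroupOf, Subgroup.mem_subgroupOf, Subgroup.mem_subgroupOf] at h9
            exact h9.2 ⟨fun h => absurd h hu1, fun h => absurd h hv1⟩
        -- conjugation by `y = x w0` acts on `W` like `x`
        have hact : ∀ w ∈ W, (x * w0)⁻¹ * w * (x * w0) = x⁻¹ * w * x := by
          intro w hw
          have h10 := hA (x⁻¹ * w * x) (hWA (hxW w hw)) w0 (hWA hw0)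
          calc (x * w0)⁻¹ * w * (x * w0) = w0⁻¹ * ((x⁻¹ * w * x) * w0) := by group
            _ = x⁻¹ * w * x := by rw [h10]; group
        have hW1n : ∀ w ∈ W1, x⁻¹ * w * x ∈ W1 := by
          intro w hw
          refine ⟨hxW w hw.1, ?_⟩
          rw [SetLike.mem_coe, ← hact w hw.1]
          exact Mg.mul_mem (Mg.mul_mem (Mg.inv_mem hy) hw.2) hy
        have hW1n' : ∀ w ∈ W, x⁻¹ * w * x ∈ W1 → w ∈ W1 := by
          intro w hw h
          refine ⟨hw, ?_⟩
          have h11 : (x * w0)⁻¹ * w * (x * w0) ∈ Mg := by rw [hact w hw]; exact h.2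
          have h12 := Mg.mul_mem (Mg.mul_mem hy h11) (Mg.inv_mem hy)
          have e : (x * w0) * ((x * w0)⁻¹ * w * (x * w0)) * (x * w0)⁻¹ = w := by group
          rw [e] at h12
          exact h12
        have hphiW1 : ∀ w ∈ W, w⁻¹ * (x⁻¹ * w * x) ∈ W1 := by
          intro w hw
          by_cases hw1 : w ∈ W1
          · exact W1.mul_mem (W1.inv_mem hw1) (hW1n w hw1)
          · refine hprod _ (W.inv_mem hw) _ (hxW w hw) ?_ ?_
            · intro hc
              exact hw1 (by simpa using W1.inv_mem hc)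
            · intro hc
              exact hw1 (hW1n' w hw hc)
        have hWW1 : W ≤ W1 := by
          intro w hw
          obtain ⟨c, hc, rfl⟩ := hphi w hw
          exact hphiW1 c hc
        have hWMg : W ≤ Mg := fun w hw => (hWW1 hw).2
        have hxMg : x ∈ Mg := by
          have h13 := Mg.mul_mem hy (Mg.inv_mem (hWMg hw0))
          rwa [mul_inv_cancel_right] at h13
        -- `W ≤ g A g⁻¹`
        have hWg : ∀ w ∈ W, g⁻¹ * w * g ∈ A := by
          intro w hw
          obtain ⟨c, hc, rfl⟩ := hphi w hw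
          have h14 := hcomm (g⁻¹ * c * g) ((memMg c).1 (hWMg hc)) (g⁻¹ * x * g)
            ((memMg x).1 hxMg)
          have e : (g⁻¹ * c * g)⁻¹ * ((g⁻¹ * x * g)⁻¹ * (g⁻¹ * c * g) * (g⁻¹ * x * g)) =
              g⁻¹ * (c⁻¹ * (x⁻¹ * c * x)) * g := by group
          rwa [e] at h14
        -- the normaliser of `W`
        have hnt : Subgroup.normalizer (W : Set G) ≠ ⊤ := by
          intro htop
          have hnorm : W.Normal := Subgroup.normalizer_eq_top_iff.1 htop
          have hsol : Group.IsSolvable W := by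
            apply Group.isSolvable_of_comm
            intro a b
            exact Subtype.ext (hA a.1 (hWA a.2) b.1 (hWA b.2))
          exact hW1 (hquo W hnorm hsol)
        have hAn : A ≤ Subgroup.normalizer (W : Set G) := by
          intro a ha
          rw [Subgroup.mem_normalizer_iff]
          intro w
          constructor
          · intro hw
            have e : a * w * a⁻¹ = w := by
              rw [hA a ha w (hWA hw), mul_inv_cancel_right]
            rw [e]
            exact hw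
          · intro hw
            have e : a * (a * w * a⁻¹) = (a * w * a⁻¹) * a := hA a ha _ (hWA hw)
            have e2 : a * w * a⁻¹ = w := by
              have e3 : a * w * a⁻¹ = a⁻¹ * ((a * w * a⁻¹) * a) := by
                rw [← e]; group
              rw [e3]
              group
            rw [e2] at hw
            exact hw
        have hNM := hmax _ hAn hnt
        apply hg
        apply hconj
        intro a ha
        apply hNM
        rw [Subgroup.mem_normalizer_iff]
        have hcw : ∀ w ∈ W, (g * a * g⁻¹) * w * (g * a * g⁻¹)⁻¹ = w := by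
          intro w hw
          have h15 := hA a ha (g⁻¹ * w * g) (hWg w hw)
          calc (g * a * g⁻¹) * w * (g * a * g⁻¹)⁻¹
              = g * (a * (g⁻¹ * w * g)) * a⁻¹ * g⁻¹ := by group
            _ = w := by rw [h15]; group
        intro w
        constructor
        · intro hw
          rw [hcw w hw]
          exact hw
        · intro hw
          have h16 := hcw _ hw
          have e : (g * a * g⁻¹) * w * (g * a * g⁻¹)⁻¹ = w := by
            have h17 : (g * a * g⁻¹) * ((g * a * g⁻¹) * w * (g * a * g⁻¹)⁻¹) =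
                ((g * a * g⁻¹) * w * (g * a * g⁻¹)⁻¹) * (g * a * g⁻¹) := by
              calc (g * a * g⁻¹) * ((g * a * g⁻¹) * w * (g * a * g⁻¹)⁻¹)
                  = ((g * a * g⁻¹) * ((g * a * g⁻¹) * w * (g * a * g⁻¹)⁻¹) *
                      (g * a * g⁻¹)⁻¹) * (g * a * g⁻¹) := by group
                _ = _ := by rw [h16]
            calc (g * a * g⁻¹) * w * (g * a * g⁻¹)⁻¹
                = (g * a * g⁻¹)⁻¹ * ((g * a * g⁻¹) *
                    ((g * a * g⁻¹) * w * (g * a * g⁻¹)⁻¹)) := by group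
              _ = w := by rw [h17]; group
          rw [e] at hw
          exact hw
      have hmulc : Nat.card W1 * W1.relIndex W = Nat.card W := by
        have h18 := Subgroup.relIndex_mul_relIndex (⊥ : Subgroup G) W1 W bot_le inf_le_left
        rwa [Subgroup.relIndex_bot_left, Subgroup.relIndex_bot_left] at h18
      have hW1c : (Finset.univ.filter (fun w : G => w ∈ W1)).card = Nat.card W1 := by
        rw [Nat.card_eq_fintype_card, Fintype.card_subtype]
      have hWc : (Finset.univ.filter (fun w : G => w ∈ W)).card = Nat.card W := by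
        rw [Nat.card_eq_fintype_card, Fintype.card_subtype]
      rw [hWc, ← hmulc, mul_comm 3]
      rw [hW1c] at hcard1
      exact Nat.mul_le_mul hcard1 hidx
    · have h0 : (Finset.univ.filter (fun w : G => w ∈ W ∧ g⁻¹ * (x * w) * g ∈ M)).card = 0 := by
        rw [Finset.card_eq_zero, Finset.filter_eq_empty_iff]
        rintro w - ⟨hw, hw2⟩
        exact hemp ⟨w, hw, hw2⟩
      rw [h0, mul_zero]
      exact Nat.zero_le _
  -- the double counting
  have hhalf := half A B B0 M hF hle hB hT x t hx1 hxM hxB hx0 h2 ht ht0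
  have hrow : ∀ w ∈ W, 2 * (Finset.univ.filter (fun g : G => g⁻¹ * (x * w) * g ∈ M)).card =
      Fintype.card G := by
    intro w hw
    obtain ⟨c, hc⟩ := hconjx w hw
    rw [← hhalf]
    congr 1
    refine Finset.card_bij' (fun g _ => c * g) (fun g _ => c⁻¹ * g) ?_ ?_ ?_ ?_
    · intro g hg
      simp only [Finset.mem_filter, Finset.mem_univ, true_and] at hg ⊢
      rw [hc] at hg
      have e : (c * g)⁻¹ * x * (c * g) = g⁻¹ * (c⁻¹ * x * c) * g := by group
      rw [e]
      exact hg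
    · intro g hg
      simp only [Finset.mem_filter, Finset.mem_univ, true_and] at hg ⊢
      rw [hc]
      have e : (c⁻¹ * g)⁻¹ * (c⁻¹ * x * c) * (c⁻¹ * g) = g⁻¹ * x * g := by group
      rw [e]
      exact hg
    · intro g hg
      exact inv_mul_cancel_left c g
    · intro g hg
      exact mul_inv_cancel_left c g
  set Wf : Finset G := Finset.univ.filter (fun w : G => w ∈ W) with hWf
  set Mf : Finset G := Finset.univ.filter (fun g : G => g ∈ M) with hMf
  have hswap : ∑ w ∈ Wf, (Finset.univ.filter (fun g : G => g⁻¹ * (x * w) * g ∈ M)).card =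
      ∑ g : G, (Finset.univ.filter (fun w : G => w ∈ W ∧ g⁻¹ * (x * w) * g ∈ M)).card := by
    have e1 : ∀ w ∈ Wf, (Finset.univ.filter (fun g : G => g⁻¹ * (x * w) * g ∈ M)).card =
        ∑ g : G, if g⁻¹ * (x * w) * g ∈ M then 1 else 0 := by
      intro w _
      rw [Finset.card_filter]
    have e2 : ∀ g : G, (Finset.univ.filter (fun w : G => w ∈ W ∧ g⁻¹ * (x * w) * g ∈ M)).card =
        ∑ w ∈ Wf, if g⁻¹ * (x * w) * g ∈ M then 1 else 0 := by
      intro g
      rw [← Finset.filter_filter, Finset.card_filter]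
    rw [Finset.sum_congr rfl e1, Finset.sum_comm]
    exact Finset.sum_congr rfl fun g _ => (e2 g).symm
  have hL : 2 * ∑ w ∈ Wf, (Finset.univ.filter (fun g : G => g⁻¹ * (x * w) * g ∈ M)).card =
      Wf.card * Fintype.card G := by
    rw [Finset.mul_sum, Finset.sum_congr rfl (fun w hw => hrow w (by
      rw [hWf, Finset.mem_filter] at hw; exact hw.2)), Finset.sum_const, smul_eq_mul]
  have hR : ∑ g : G, 3 * (Finset.univ.filter
      (fun w : G => w ∈ W ∧ g⁻¹ * (x * w) * g ∈ M)).card ≤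
      ∑ g : G, (Wf.card + if g ∈ M then 2 * Wf.card else 0) := by
    refine Finset.sum_le_sum fun g _ => ?_
    by_cases hg : g ∈ M
    · rw [if_pos hg]
      have : (Finset.univ.filter (fun w : G => w ∈ W ∧ g⁻¹ * (x * w) * g ∈ M)).card ≤
          Wf.card := by
        apply Finset.card_le_card
        intro w hw
        rw [Finset.mem_filter] at hw
        rw [hWf, Finset.mem_filter]
        exact ⟨hw.1, hw.2.1⟩
      omega
    · rw [if_neg hg, add_zero]
      exact h6 g hg
  have hR2 : ∑ g : G, (Wf.card + if g ∈ M then 2 * Wf.card else 0) =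
      Fintype.card G * Wf.card + Mf.card * (2 * Wf.card) := by
    rw [Finset.sum_add_distrib, Finset.sum_const, Finset.card_univ, smul_eq_mul,
      ← Finset.sum_filter, Finset.sum_const, smul_eq_mul]
  rw [← Finset.mul_sum, hR2, ← hswap] at hR
  have hWpos : 0 < Wf.card := by
    rw [Finset.card_pos]
    exact ⟨1, by rw [hWf, Finset.mem_filter]; exact ⟨Finset.mem_univ _, W.one_mem⟩⟩
  have hfinal : Wf.card * Fintype.card G ≤ Wf.card * (4 * Mf.card) := by
    nlinarith [hL, hR]
  have hGM : Fintype.card G ≤ 4 * Mf.card := Nat.le_of_mul_le_mul_left hfinal hWpos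
  have hMc : Mf.card = Nat.card M := by
    rw [Nat.card_eq_fintype_card, Fintype.card_subtype]
  have hidx : Nat.card M * M.index = Nat.card G := Subgroup.card_mul_index M
  have hMpos : 0 < Nat.card M := Nat.card_pos
  rw [← Nat.card_eq_fintype_card, ← hidx, hMc, mul_comm 4] at hGM
  exact Nat.le_of_mul_le_mul_left hGM hMpos

end Pool.Agent.H86.FK
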